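import Pool.Agent.Lib.MP_c7af3c_ag.T2.H26.Ker
import Pool.Agent.Lib.MP_c7af3c_ag.T2C.IfaceA

/-!
# MP_c7af3c_ag, project T2C: row KER
-/

set_option autoImplicit false

namespace Pool.Agent.T2C.H26

open MvPolynomial Pool.Agent.Gen Pool.Agent.Sharp Pool.Agent.Edge

theorem kerF_eq {L : Type} [Field L] {n c : ℕ} {d : Fin c → ℕ} (D : DSys L n c d)
    (x : Fin (n + 1) → L) : Pool.Agent.T2.H26.KerF D x = KerF D x :=
  Submodule.ext fun _ => Iff.rfl

theorem ker : KerStatement := by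
  intro L _ n c d D x j0 hj0 h0
  have h := Pool.Agent.T2.H26.ker D x hj0 h0
  rw [kerF_eq] at h
  exact h

end Pool.Agent.T2C.H26
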