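import Pool.Agent.Lib.MP_c7af3c_ag.T2C.IfaceC

/-!
# MP_c7af3c_ag, project T2C: the seam between part (A) and the plane type (row SEAM)
The reduction modulo the forms `lam f` is that of T2/H60/Seam.lean (helper60).
-/

set_option autoImplicit false

namespace Pool.Agent.T2C.H26

open MvPolynomial Pool.Agent.Gen Pool.Agent.Sharp Pool.Agent.Edge
open Pool.Agent.T2 (Fk Rac lnf Sizes Sit)
open Pool.Agent.Edge.H65 (ssub ssub_X ssub_hom)
open Pool.Agent.Sharp.H75 (DG)

section

variable {K : Type} [Field K] {n : ℕ} (t : Fin (2 + 1) → Fin (n + 1))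
  (P : Fin (2 + 1) → Fin (n + 1) → K)

/-- the multiples of the forms `lam f` by the forms of degree `m` -/
noncomputable def Ul (m : ℕ) : Submodule K (MvPolynomial (Fin (n + 1)) K) :=
  Submodule.span K {g | ∃ A f, A.IsHomogeneous m ∧ g = A * lam t P f}

theorem Ul_mul {m : ℕ} {g : MvPolynomial (Fin (n + 1)) K} (hg : g ∈ Ul t P m)
    (f : Fin (n + 1)) : X f * g ∈ Ul t P (m + 1) := by
  have h1 : (Ul t P m) ≤ (Ul t P (m + 1)).comap (LinearMap.mulLeft K (X f)) := by
    refine Submodule.span_le.2 ?_
    rintro _ ⟨A, f', hA, rfl⟩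
    refine Submodule.subset_span ⟨A * X f, f', hA.mul (isHomogeneous_X K f), ?_⟩
    rw [LinearMap.mulLeft_apply]
    ring
  exact h1 hg

theorem rho_lam (f : Fin (n + 1)) :
    (X f : MvPolynomial (Fin (n + 1)) K) - rename t (ssub P (X f)) = lam t P f := by
  rw [ssub_X, map_sum]
  unfold lam
  congr 1
  refine Finset.sum_congr rfl fun i _ => ?_
  rw [map_mul, rename_C, rename_X]

/-- a form is equal to its normal form modulo the forms `lam f` -/
theorem sub_rho {m : ℕ} {G : MvPolynomial (Fin (n + 1)) K} (hG : G.IsHomogeneous (m + 1)) :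
    G - rename t (ssub P G) ∈ Ul t P m := by
  classical
  have key : ∀ (m : ℕ) (I : Fin (n + 1) →₀ ℕ), I.degree = m + 1 → ∀ a : K,
      monomial I a - rename t (ssub P (monomial I a)) ∈ Ul t P m := by
    intro m
    induction m with
    | zero =>
      intro I hI a
      obtain ⟨f, hf⟩ : ∃ f, I f ≠ 0 := by
        by_contra hcon
        push Not at hcon
        have : I = 0 := Finsupp.ext hcon
        rw [this, map_zero] at hI
        omega
      have h1 : I = Finsupp.single f 1 + (I - Finsupp.single f 1) :=
        (add_tsub_cancel_of_le (Finsupp.single_le_iff.2 (Nat.one_le_iff_ne_zero.2 hf))).symm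
      have h2 : I - Finsupp.single f 1 = 0 := by
        have h3 := congrArg Finsupp.degree h1
        rw [map_add, Finsupp.degree_single] at h3
        exact (Finsupp.degree_eq_zero_iff _).1 (by omega)
      rw [h2, add_zero] at h1
      have h4 : (monomial I a : MvPolynomial (Fin (n + 1)) K) = C a * X f := by
        rw [h1, C_mul_X_eq_monomial]
      rw [h4, map_mul, map_mul]
      have h5 : rename t (ssub P (C a)) = (C a : MvPolynomial (Fin (n + 1)) K) := by
        rw [H65.ssub_C, rename_C]
      rw [h5, ← mul_sub, rho_lam]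
      exact Submodule.subset_span ⟨C a, f, isHomogeneous_C _ a, rfl⟩
    | succ m ih =>
      intro I hI a
      obtain ⟨f, hf⟩ : ∃ f, I f ≠ 0 := by
        by_contra hcon
        push Not at hcon
        have : I = 0 := Finsupp.ext hcon
        rw [this, map_zero] at hI
        omega
      have h1 : I = Finsupp.single f 1 + (I - Finsupp.single f 1) :=
        (add_tsub_cancel_of_le (Finsupp.single_le_iff.2 (Nat.one_le_iff_ne_zero.2 hf))).symm
      set J := I - Finsupp.single f 1 with hJ
      have h2 : J.degree = m + 1 := by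
        have h3 := congrArg Finsupp.degree h1
        rw [map_add, Finsupp.degree_single] at h3
        omega
      have h4 : (monomial I a : MvPolynomial (Fin (n + 1)) K) = X f * monomial J a := by
        rw [h1, X, monomial_mul, one_mul]
      have h5 := ih J h2 a
      have hJh : (monomial J a : MvPolynomial (Fin (n + 1)) K).IsHomogeneous (m + 1) :=
        isHomogeneous_monomial _ h2
      have h6 : (rename t (ssub P (monomial J a))).IsHomogeneous (m + 1) :=
        (ssub_hom P hJh).rename_isHomogeneous
      rw [h4, map_mul, map_mul]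
      have h7 : X f * monomial J a - rename t (ssub P (X f)) * rename t (ssub P (monomial J a)) =
          X f * (monomial J a - rename t (ssub P (monomial J a))) +
          rename t (ssub P (monomial J a)) * (X f - rename t (ssub P (X f))) := by ring
      rw [h7, rho_lam]
      exact (Ul t P (m + 1)).add_mem (Ul_mul t P h5 f)
        (Submodule.subset_span ⟨_, f, h6, rfl⟩)
  have h1 : G - rename t (ssub P G) = ∑ I ∈ G.support,
      (monomial I (coeff I G) - rename t (ssub P (monomial I (coeff I G)))) := by
    rw [Finset.sum_sub_distrib, ← map_sum, ← map_sum, support_sum_monomial_coeff]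
  rw [h1]
  refine Submodule.sum_mem _ fun I hI => key m I ?_ _
  have := hG (mem_support_iff.1 hI)
  rw [← this, Finsupp.degree_eq_weight_one]
  rfl

end

section

variable {K : Type} [Field K] {n c : ℕ} {d : Fin c → ℕ} (D : DSys K n c d)

theorem VT_DG (x : Fin (n + 1) → K) (G : TP K n c) (f : Fin (n + 1)) :
    VT D x G f = DG D G (x f) :=
  H75.VT_apply D x G f

theorem VT_single (x : Fin (n + 1) → K) (m : Fin c) (G : MvPolynomial (Fin (n + 1)) K) :
    VT D x (Pi.single m G) = D.V x m G := by
  rw [VT_apply, Finset.sum_eq_single m]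
  · rw [Pi.single_eq_same]
  · intro m' _ hm'
    rw [Pi.single_eq_of_ne hm', map_zero]
  · intro h; exact absurd (Finset.mem_univ m) h

/-- a variation which is a multiple of the normalised point is zero -/
theorem VT_zero_of_span {x : Fin (n + 1) → K} {j0 : Fin (n + 1)} (hj0 : x j0 = 1)
    {G : TP K n c} (h : VT D x G ∈ Submodule.span K {x}) : VT D x G = 0 := by
  obtain ⟨a, ha⟩ := Submodule.mem_span_singleton.1 h
  have h1 : VT D x G j0 = 0 := by
    rw [VT_DG, hj0]
    exact Derivation.map_one_eq_zero _
  rw [← ha, Pi.smul_apply, hj0, smul_eq_mul, mul_one] at h1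
  rw [← ha, h1, zero_smul]

/-- tuples which vanish on the plane -/
theorem VT_zero {x : Fin (n + 1) → K} {t : Fin (2 + 1) → Fin (n + 1)}
    {P : Fin (2 + 1) → Fin (n + 1) → K} (hd : ∀ m, 1 ≤ d m)
    (h : ∀ A : TP K n c, Adm d A → ∀ f, VT D x (mulT A (lam t P f)) = 0)
    {G : TP K n c} (hG : ∀ m, (G m).IsHomogeneous (d m)) (h0 : ∀ m, ssub P (G m) = 0) :
    VT D x G = 0 := by
  rw [VT_apply]
  refine Finset.sum_eq_zero fun m _ => ?_
  obtain ⟨e, he⟩ := Nat.exists_eq_add_of_le' (hd m)
  have h1 := hG m
  rw [he] at h1
  have h2 := sub_rho t P h1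
  rw [h0 m, map_zero, sub_zero] at h2
  have h3 : Ul t P e ≤ LinearMap.ker (D.V x m) := by
    refine Submodule.span_le.2 ?_
    rintro _ ⟨A, f, hA, rfl⟩
    have h4 := h (Pi.single m A) (by
      intro m' I hI
      by_cases hm : m' = m
      · subst hm
        rw [Pi.single_eq_same] at hI
        have := hA hI
        rw [he, ← this, Finsupp.degree_eq_weight_one]
        rfl
      · rw [Pi.single_eq_of_ne hm, coeff_zero] at hI
        exact absurd rfl hI) f
    have h5 : mulT (Pi.single m A) (lam t P f) = Pi.single m (A * lam t P f) := by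
      funext m'
      unfold mulT
      by_cases hm : m' = m
      · subst hm; rw [Pi.single_eq_same, Pi.single_eq_same]
      · rw [Pi.single_eq_of_ne hm, Pi.single_eq_of_ne hm, zero_mul]
    rw [h5, VT_single] at h4
    exact h4
  exact h3 h2

end

theorem seam : SeamStatement := by
  classical
  intro Ω _ _ k Γ _ S n c d D x j0 hd hS hB hl t P hC hvan hint
  have hinj : Function.Injective t := by
    intro i j hij
    by_contra hne
    have h1 := hC.Pt i j
    have h2 := hC.Pt i i
    rw [if_neg hne, ← hij] at h1
    rw [if_pos rfl, h1] at h2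
    exact zero_ne_one h2
  refine ⟨hS.comm, hS.h0, fun p q => hB _ (Or.inl ⟨p, q, rfl⟩), ?_, hinj, hC.Pt,
    by rw [hC.t0]; exact hS.hj0, hC.xP, ?_, ?_⟩
  · intro m m' A hm hA f
    have key : ∀ I : Fin (n + 1) →₀ ℕ, I.degree = d m - d m' →
        VT D x (Pi.single m (monomial I 1 * D.F m')) = 0 := by
      intro I hI
      refine VT_zero_of_span D hS.hj0 (hB _ (Or.inr ⟨_, ?_, ?_, rfl⟩))
      · intro m1
        by_cases h : m1 = m
        · subst h
          rw [Pi.single_eq_same]
          refine ⟨?_, ?_⟩
          · have h1 : (monomial I (1 : Ω)).IsHomogeneous (d m1 - d m') :=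
              isHomogeneous_monomial _ hI
            have h2 := h1.mul (D.hom m')
            rwa [Nat.sub_add_cancel hm] at h2
          · intro J
            rw [coeff_monomial_mul']
            split_ifs
            · rw [one_mul]; exact hS.kF _ _
            · exact zero_mem _
        · rw [Pi.single_eq_of_ne h]
          exact ⟨isHomogeneous_zero _ _ _, fun I => by rw [coeff_zero]; exact zero_mem _⟩
      · intro m1
        by_cases h : m1 = m
        · subst h
          rw [Pi.single_eq_same, map_mul, hS.h0, mul_zero]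
        · rw [Pi.single_eq_of_ne h, map_zero]
    have h1 : VT D x (Pi.single m (A * D.F m')) = 0 := by
      rw [VT_single]
      have h2 : A * D.F m' = ∑ I ∈ A.support, coeff I A • (monomial I 1 * D.F m') := by
        conv_lhs => rw [A.as_sum, Finset.sum_mul]
        refine Finset.sum_congr rfl fun I _ => ?_
        rw [← smul_mul_assoc, smul_monomial, smul_eq_mul, mul_one]
      rw [h2, map_sum]
      refine Finset.sum_eq_zero fun I hI => ?_
      rw [map_smul, ← VT_single, key I, smul_zero]
      have := hA (mem_support_iff.1 hI)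
      rw [← this, Finsupp.degree_eq_weight_one]
      rfl
    rw [← VT_DG, h1]
    rfl
  · intro G hG h0
    refine ⟨fun f => ?_, fun i f => ?_⟩
    · rw [← VT_DG, VT_zero D hd hvan hG h0]
      rfl
    · rw [← VT_DG, VT_zero D hd (fun A hA f => hint A hA f i) hG h0]
      rfl
  · intro y κ hy
    obtain ⟨G, h1, h2, h3⟩ := hl y κ hy
    refine ⟨G, h1, h2, fun h4 => h3 ?_⟩
    have h5 : VT D x G = fun f => DG D G (x f) := funext fun f => VT_DG D x G f
    rw [h5]
    exact h4

end Pool.Agent.T2C.H26
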