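import Pool.Agent.Lib.MP_c7af3c_ag.T2C.IfaceC

/-!
# MP_c7af3c_ag, project T2C: the case tree and the height inequality (row ASM2)
-/

set_option autoImplicit false

namespace Pool.Agent.T2C.H26

open MvPolynomial Pool.Agent.Gen Pool.Agent.Sharp Pool.Agent.Edge
open Pool.Agent.T2 (Fk Rac lnf Sizes Sit)

/-- If `x` is on no line over `k` and on no plane over `k`, then a plane through `x` is not
over `k`. -/
theorem notk {Ω : Type} [Field Ω] {k : Subfield Ω} {n : ℕ} {x : Fin (n + 1) → Ω}
    {j0 : Fin (n + 1)}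
    (hh : ∃ (m : ℕ) (t : Fin (m + 1) → Fin (n + 1)) (P : Fin (m + 1) → Fin (n + 1) → Ω),
      2 ≤ m ∧ Hull k x j0 t P)
    (hp : ∀ (m : ℕ) (t : Fin (m + 1) → Fin (n + 1)) (P : Fin (m + 1) → Fin (n + 1) → Ω),
      Hull k x j0 t P → 3 ≤ m)
    {t : Fin (2 + 1) → Fin (n + 1)} {P : Fin (2 + 1) → Fin (n + 1) → Ω} (hC : Cht x j0 t P) :
    ∃ i f, P i f ∉ k := by
  classical
  by_contra hcon
  push Not at hcon
  obtain ⟨m, t', P', hm, hH⟩ := hh
  have hm3 := hp m t' P' hH
  -- the `m + 1` elements `x (t' i)` of the space spanned by the `x (t j)` over `k`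
  let b : Fin (m + 1) → Fin 3 → k := fun i j => ⟨P j (t' i), hcon j (t' i)⟩
  have hb : ¬ LinearIndependent k b := by
    intro h
    have h1 := h.fintype_card_le_finrank
    rw [Fintype.card_fin, Module.finrank_fin_fun] at h1
    omega
  rw [Fintype.not_linearIndependent_iff] at hb
  obtain ⟨a, ha, i0, hi0⟩ := hb
  have h1 := hH.yk (fun i => (a i : Ω)) (fun i => (a i).2) (by
    have h2 : ∀ i, (a i : Ω) * x (t' i) = ∑ j, ((a i : Ω) * P j (t' i)) * x (t j) := by
      intro i
      rw [hC.xP (t' i), Finset.mul_sum]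
      exact Finset.sum_congr rfl fun j _ => by ring
    rw [Finset.sum_congr rfl fun i _ => h2 i, Finset.sum_comm]
    refine Finset.sum_eq_zero fun j _ => ?_
    rw [← Finset.sum_mul]
    have h3 := congrFun ha j
    rw [Finset.sum_apply] at h3
    have h4 := congrArg (fun z : k => (z : Ω)) h3
    simp only [Pi.smul_apply, smul_eq_mul, Pi.zero_apply] at h4
    have h5 : ∑ i, (a i : Ω) * P j (t' i) = 0 := by
      have h6 : ((∑ i, a i * b i j : k) : Ω) = ∑ i, (a i : Ω) * P j (t' i) := by
        rw [AddSubmonoidClass.coe_finsetSum]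
        rfl
      rw [← h6]
      exact h4
    rw [h5, zero_mul])
  exact hi0 (Subtype.ext (congrFun h1 i0))

/-- the case tree: the situation over the ultraproduct is impossible -/
theorem t2c {n c : ℕ} {d : Fin c → ℕ} (hn : n = c + 3) (hd : ∀ m, 2 ≤ d m)
    {Ω : Type} [Field Ω] [CharZero Ω] {k : Subfield Ω} {Γ : Type}
    [LinearOrderedCommGroupWithZero Γ] {S : Sizes Ω k Γ} {D : DSys Ω n c d}
    {x : Fin (n + 1) → Ω} {j0 : Fin (n + 1)} (h : Sit S D x j0)
    (hreg : ∀ A : TP Ω n c, Tk k d A → Module.finrank Ω (EA D x j0 k A) ≤ 3)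
    (hw : Module.finrank Ω (Tb D x k) ≤ 2)
    (hull : ∃ (m : ℕ) (t : Fin (m + 1) → Fin (n + 1)) (P : Fin (m + 1) → Fin (n + 1) → Ω),
      2 ≤ m ∧ Hull k x j0 t P)
    (nopl : (∀ m, d m ≤ 4) → ∀ (m : ℕ) (t : Fin (m + 1) → Fin (n + 1))
      (P : Fin (m + 1) → Fin (n + 1) → Ω), Hull k x j0 t P → 3 ≤ m)
    (hd5 : ∀ m, d m ≤ 5)
    (line : ∀ y κ : Fin (n + 1) → Ω, LinearIndependent Ω ![x, y] →
      (∀ u, Bc D x k u → u ∈ Submodule.span Ω {x, κ}) →
      ¬ ∀ G : TP Ω n c, Lines.Hom d G → Lines.OnLine x y G → VT D x G ∈ Submodule.span Ω {x, κ})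
    (ker : KerStatement) (rk1 : Rk1Statement) (atk : AtkStatement)
    (beta : (∀ u, Bc D x k u → u ∈ Submodule.span Ω {x}) →
      (∀ y κ : Fin (n + 1) → Ω, LinearIndependent Ω ![x, y] →
        ∃ G : TP Ω n c, Lines.Hom d G ∧ Lines.OnLine x y G ∧
          VT D x G ∉ Submodule.span Ω {x, κ}) →
      ∀ (t : Fin (2 + 1) → Fin (n + 1)) (P : Fin (2 + 1) → Fin (n + 1) → Ω), Cht x j0 t P →
      (∀ A : TP Ω n c, Adm d A → ∀ f, VT D x (mulT A (lam t P f)) = 0) →
      ∀ A : TP Ω n c, Adm d A → ∀ f i, VT D (P i) (mulT A (lam t P f)) = 0)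
    (seam : SeamStatement) (plane : PlaneAt n c d) : False := by
  classical
  have hd1 : ∀ m, 1 ≤ d m := fun m => le_trans (by norm_num) (hd m)
  by_cases h3 : Module.finrank Ω (Tb D x k) = 2
  · -- the bounded columns span a plane
    obtain ⟨y, hy, hG⟩ := rk1 ker Ω k n c d D x j0 hn hd1 h.hj0 h.h0 h3 hreg
    -- a second generator
    have hx : x ∈ Tb D x k := Submodule.subset_span (Or.inl rfl)
    have hx0 : x ≠ 0 := by
      intro h0
      have := congrFun h0 j0
      rw [h.hj0] at this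
      exact one_ne_zero this
    obtain ⟨κ, hκ⟩ : ∃ κ, Tb D x k = Submodule.span Ω {x, κ} := by
      have hlt : Submodule.span Ω {x} < Tb D x k := by
        refine lt_of_le_of_ne ((Submodule.span_singleton_le_iff_mem _ _).2 hx) fun h4 => ?_
        have h5 : Module.finrank Ω (Submodule.span Ω {x}) = 2 := by rw [h4, h3]
        rw [finrank_span_singleton hx0] at h5
        exact absurd h5 (by norm_num)
      obtain ⟨κ, hκ, hκ'⟩ := SetLike.exists_of_lt hlt
      refine ⟨κ, ?_⟩
      have hle : Submodule.span Ω {x, κ} ≤ Tb D x k := by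
        rw [Submodule.span_le]
        rintro u (rfl | rfl)
        · exact hx
        · exact hκ
      refine (Submodule.eq_of_le_of_finrank_le hle ?_).symm
      rw [h3]
      have hli : LinearIndependent Ω ![x, κ] := by
        rw [LinearIndependent.pair_iff' hx0]
        intro a ha
        exact hκ' (Submodule.mem_span_singleton.2 ⟨a, ha⟩)
      have h6 := finrank_span_eq_card hli
      rw [Matrix.range_cons_cons_empty, Fintype.card_fin] at h6
      rw [h6]
    rw [hκ] at hG
    refine line y κ hy (fun u hu => ?_) hG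
    rw [← hκ]
    exact Submodule.subset_span (Or.inr hu)
  · -- all bounded columns are multiples of `x`
    have hB : ∀ u, Bc D x k u → u ∈ Submodule.span Ω {x} := by
      have hx0 : x ≠ 0 := by
        intro h0
        have := congrFun h0 j0
        rw [h.hj0] at this
        exact one_ne_zero this
      have hle : Submodule.span Ω {x} ≤ Tb D x k :=
        Submodule.span_mono Set.subset_union_left
      have heq : Submodule.span Ω {x} = Tb D x k := by
        refine Submodule.eq_of_le_of_finrank_le hle ?_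
        rw [finrank_span_singleton hx0]
        omega
      intro u hu
      rw [heq]
      exact Submodule.subset_span (Or.inr hu)
    have hl : ∀ y κ : Fin (n + 1) → Ω, LinearIndependent Ω ![x, y] →
        ∃ G : TP Ω n c, Lines.Hom d G ∧ Lines.OnLine x y G ∧
          VT D x G ∉ Submodule.span Ω {x, κ} := by
      intro y κ hy
      by_contra hcon
      push Not at hcon
      exact line y κ hy (fun u hu => Submodule.span_mono (by simp) (hB u hu)) hcon
    rcases atk ker Ω k n c d D x j0 hn hd h.hj0 h.h0 hB hreg with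
      ⟨y, κ, hy, hG⟩ | ⟨t, P, hch, hv⟩
    · obtain ⟨G, h4, h5, h6⟩ := hl y κ hy
      exact h6 (hG G h4 h5)
    · have h5 := beta hB hl t P hch hv
      have h6 := seam Ω k Γ S n c d D x j0 hd1 h hB hl t P hch hv h5
      have h7 : Sit S D x (t 0) := by
        rw [hch.t0]
        exact h
      refine plane Ω k Γ S D x t P h7 h6 fun _ hne => notk hull (nopl fun m => ?_) hch
      have h8 := hd5 m
      have h9 := hne m
      omega

/-- the degrees are at most 5 -/
theorem le5 {n c : ℕ} {d : Fin c → ℕ} (hn : n = c + 3) (hs : ∑ m, d m = n + 2)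
    (hd : ∀ m, 2 ≤ d m) (hc : 2 ≤ c) (m : Fin c) : d m ≤ 5 := by
  classical
  have h1 := Finset.add_sum_erase Finset.univ d (Finset.mem_univ m)
  have h2 : (Finset.univ.erase m).card • 2 ≤ ∑ m' ∈ Finset.univ.erase m, d m' :=
    Finset.card_nsmul_le_sum _ _ _ fun m' _ => hd m'
  rw [Finset.card_erase_of_mem (Finset.mem_univ m), Finset.card_univ, Fintype.card_fin,
    smul_eq_mul] at h2
  omega

theorem asm2 : Asm2Statement := by
  intro ld dex ker loc taub hull vanb w2 wordb ann0 ann1 nopl no3 reg exta corea enda k25 asma line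
    rk1 atk beta seam ultra2 n c d hn hs hd hc hl5 plane j0
  by_contra hne
  obtain ⟨Ω, _, _, k, Γ, _, S, D, x, hsit⟩ := ultra2 n c d j0 hl5 hne
  exact t2c hn hd hsit
    (asma ld dex ker loc taub hull vanb w2 wordb ann0 ann1 nopl no3 reg exta corea enda k25
      Ω k Γ S n c d D x j0 hn hs hd hc hsit)
    (w2 ker loc taub hull vanb Ω k Γ S n c d D x j0 hn hs hsit)
    (hull Ω k Γ S n c d D x j0 hsit)
    (fun h4 => nopl Ω k Γ S n c d D x j0 hn hs hd hc h4 hsit)
    (le5 hn hs hd hc)
    (line Ω k Γ S n c d D x j0 hn hs hd hc hsit) ker rk1 atk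
    (beta loc hull nopl Ω k Γ S n c d D x j0 hn hs hd hc hsit) seam plane

/-- the plane type for all degrees -/
theorem planeAt (plane : PlaneTypeStatement) {n c : ℕ} {d : Fin c → ℕ} (hn : n = c + 3)
    (hs : ∑ m, d m = n + 2) (hd : ∀ m, 2 ≤ d m) (hc : 2 ≤ c) : PlaneAt n c d :=
  fun Ω _ _ k Γ _ S D x t P h1 h2 h3 =>
    plane Ω k Γ S n c d D x t P ⟨hn, hd, by omega⟩ hc h1 h2 h3

end Pool.Agent.T2C.H26
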